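import Pool.Agent.Lib.MP_28303a_al.HIG.Iface

/-! # Module BASFP: the base group is finitely presented -/

set_option autoImplicit false

namespace Pool.Agent.NegK.Hig.H50

open Pool.Agent.NegK.Hig SemidirectProduct

section

variable (S J : Type)

/-- The commutators of the letters in `J`. -/
def bcom : J × J → FreeGroup (S ⊕ J) := fun p =>
  FreeGroup.of (.inr p.1) * FreeGroup.of (.inr p.2) * (FreeGroup.of (.inr p.1))⁻¹ *
    (FreeGroup.of (.inr p.2))⁻¹

/-- The unit vector. -/
noncomputable def uvec {J : Type} (j : J) : J → ℤ := open Classical in Pi.single j 1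

/-- The map from the free group to the base group. -/
noncomputable def bmap : FreeGroup (S ⊕ J) →* Bas S (J → ℤ) :=
  FreeGroup.lift fun x => match x with
    | .inl s => tt s 0
    | .inr j => xx S (uvec j)

theorem xx_add {S J : Type} (u v : J → ℤ) : xx S (u + v) = xx S u * xx S v := by
  unfold xx
  rw [ofAdd_add, map_mul]

theorem xx_zero (S : Type) {J : Type} : xx S (0 : J → ℤ) = 1 := by
  unfold xx
  rw [ofAdd_zero, map_one]

theorem xx_comm {S J : Type} (u v : J → ℤ) : xx S u * xx S v = xx S v * xx S u := by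
  rw [← xx_add, ← xx_add, add_comm]

/-- The quotient by the commutators. -/
abbrev BQ : Type := FreeGroup (S ⊕ J) ⧸ Subgroup.normalClosure (Set.range (bcom S J))

/-- The class of a letter in `J`. -/
def qx (j : J) : BQ S J := QuotientGroup.mk (FreeGroup.of (.inr j))

theorem qx_comm (i j : J) : Commute (qx S J i) (qx S J j) := by
  have h : (QuotientGroup.mk (bcom S J (i, j)) : BQ S J) = 1 :=
    (QuotientGroup.eq_one_iff _).2 (Subgroup.subset_normalClosure ⟨(i, j), rfl⟩)
  exact commutatorElement_eq_one_iff_commute.1 h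

variable [Finite J]

/-- The homomorphism `ℤ^J → BQ`. -/
noncomputable def qv : Multiplicative (J → ℤ) →* BQ S J := by
  classical
  exact (letI := Fintype.ofFinite J
    (MonoidHom.noncommPiCoprod (fun j : J => zpowersHom (BQ S J) (qx S J j))
      (fun i j _ x y => by
        simp only [zpowersHom_apply]
        exact ((qx_comm S J i j).zpow_zpow _ _))).comp
      ({ toFun := fun v j => Multiplicative.ofAdd (v.toAdd j)
         map_one' := rfl
         map_mul' := fun _ _ => rfl } : Multiplicative (J → ℤ) →* (J → Multiplicative ℤ)))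

theorem qv_uvec (j : J) : qv S J (Multiplicative.ofAdd (uvec j)) = qx S J j := by
  classical
  let _ := Fintype.ofFinite J
  unfold qv uvec
  rw [MonoidHom.comp_apply]
  have h : ({ toFun := fun v j => Multiplicative.ofAdd (v.toAdd j)
              map_one' := rfl
              map_mul' := fun _ _ => rfl } : Multiplicative (J → ℤ) →* (J → Multiplicative ℤ))
      (Multiplicative.ofAdd (Pi.single j 1)) = Pi.mulSingle j (Multiplicative.ofAdd 1) := by
    ext i
    by_cases hij : i = j
    · subst hij
      simp
    · simp [Pi.single_eq_of_ne hij, Pi.mulSingle_eq_of_ne hij]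
  rw [h, MonoidHom.noncommPiCoprod_mulSingle]
  simp

/-- The homomorphism on the free group. -/
noncomputable def qf : FreeGroup (S × (J → ℤ)) →* BQ S J :=
  FreeGroup.lift fun p => qv S J (Multiplicative.ofAdd p.2) *
    (QuotientGroup.mk (FreeGroup.of (.inl p.1)) : BQ S J) *
      (qv S J (Multiplicative.ofAdd p.2))⁻¹

theorem qf_of (s : S) (u : J → ℤ) : qf S J (FreeGroup.of (s, u)) =
    qv S J (Multiplicative.ofAdd u) * (QuotientGroup.mk (FreeGroup.of (.inl s)) : BQ S J) *
      (qv S J (Multiplicative.ofAdd u))⁻¹ := by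
  unfold qf
  rw [FreeGroup.lift_apply_of]

/-- The inverse map. -/
noncomputable def bth : Bas S (J → ℤ) →* BQ S J :=
  SemidirectProduct.lift (qf S J) (qv S J) (by
    intro v
    refine FreeGroup.ext_hom _ _ fun p => ?_
    obtain ⟨s, u⟩ := p
    rw [MonoidHom.comp_apply, MonoidHom.comp_apply]
    show qf S J (shift S (J → ℤ) v (FreeGroup.of (s, u))) =
      MulAut.conj (qv S J v) (qf S J (FreeGroup.of (s, u)))
    rw [shift_of, qf_of, qf_of, MulAut.conj_apply, ofAdd_add, ofAdd_toAdd, mul_comm, map_mul]
    group)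

theorem bth_bmap (w : FreeGroup (S ⊕ J)) : bth S J (bmap S J w) = QuotientGroup.mk w := by
  have h : (bth S J).comp (bmap S J) = QuotientGroup.mk' _ := by
    refine FreeGroup.ext_hom _ _ fun x => ?_
    rw [MonoidHom.comp_apply]
    unfold bmap
    rw [FreeGroup.lift_apply_of]
    match x with
    | .inl s =>
      show bth S J (tt s 0) = QuotientGroup.mk _
      unfold bth tt
      rw [SemidirectProduct.lift_inl, qf_of, ofAdd_zero, map_one, one_mul, inv_one, mul_one]
    | .inr j =>
      show bth S J (xx S (uvec j)) = QuotientGroup.mk _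
      unfold bth xx
      rw [SemidirectProduct.lift_inr, qv_uvec]
      rfl
  exact DFunLike.congr_fun h w

theorem bmap_surjective : Function.Surjective (bmap S J) := by
  classical
  let _ := Fintype.ofFinite J
  have hs : ∀ s : S, tt s (0 : J → ℤ) ∈ (bmap S J).range := fun s =>
    ⟨FreeGroup.of (.inl s), by unfold bmap; rw [FreeGroup.lift_apply_of]⟩
  have hj : ∀ j : J, xx S (uvec j) ∈ (bmap S J).range := fun j =>
    ⟨FreeGroup.of (.inr j), by unfold bmap; rw [FreeGroup.lift_apply_of]⟩
  let H : AddSubgroup (J → ℤ) :=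
    { carrier := {v | xx S v ∈ (bmap S J).range}
      zero_mem' := by
        show xx S (0 : J → ℤ) ∈ (bmap S J).range
        rw [xx_zero]
        exact Subgroup.one_mem _
      add_mem' := by
        intro a b ha hb
        show xx S (a + b) ∈ (bmap S J).range
        rw [xx_add]
        exact Subgroup.mul_mem _ ha hb
      neg_mem' := by
        intro a ha
        show xx S (-a) ∈ (bmap S J).range
        have h1 : xx S (-a) = (xx S a)⁻¹ := by
          rw [eq_inv_iff_mul_eq_one, ← xx_add, neg_add_cancel, xx_zero]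
        rw [h1]
        exact Subgroup.inv_mem _ ha }
  have hv : ∀ v : J → ℤ, xx S v ∈ (bmap S J).range := by
    intro v
    have h1 : v = ∑ j, v j • (uvec j : J → ℤ) := by
      funext i
      rw [Finset.sum_apply, Finset.sum_eq_single i]
      · simp [uvec]
      · intro j _ hji
        simp [uvec, Pi.single_eq_of_ne hji.symm]
      · intro h
        exact (h (Finset.mem_univ i)).elim
    have h2 : v ∈ H := by
      rw [h1]
      exact AddSubgroup.sum_mem _ fun j _ => AddSubgroup.zsmul_mem _ (hj j) _
    exact h2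
  have ht : ∀ (s : S) (u : J → ℤ), tt s u ∈ (bmap S J).range := by
    intro s u
    have h1 := xx_tt u s (0 : J → ℤ)
    rw [zero_add] at h1
    have h2 : tt s u = xx S u * tt s 0 * (xx S u)⁻¹ := by
      rw [h1, mul_inv_cancel_right]
    rw [h2]
    exact Subgroup.mul_mem _ (Subgroup.mul_mem _ (hv u) (hs s)) (Subgroup.inv_mem _ (hv u))
  have hl : (⊤ : Subgroup (FreeGroup (S × (J → ℤ)))) ≤
      (bmap S J).range.comap (inl : FreeGroup (S × (J → ℤ)) →* Bas S (J → ℤ)) := by
    rw [← FreeGroup.closure_range_of, Subgroup.closure_le]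
    rintro _ ⟨⟨s, u⟩, rfl⟩
    exact ht s u
  intro x
  have h1 : (inl x.left : Bas S (J → ℤ)) * inr x.right = x := inl_left_mul_inr_right x
  have h2 : x ∈ (bmap S J).range := by
    rw [← h1]
    exact Subgroup.mul_mem _ (hl (Subgroup.mem_top x.left)) (hv x.right.toAdd)
  exact h2

end

theorem basfp : BasfpStatement := by
  intro S J _ _
  refine Group.IsFinitelyPresented.of_surjective (bmap S J) (bmap_surjective S J)
    ⟨Set.range (bcom S J), Set.finite_range _, le_antisymm ?_ ?_⟩
  · refine Subgroup.normalClosure_le_normal ?_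
    rintro _ ⟨p, rfl⟩
    show bcom S J p ∈ (bmap S J).ker
    rw [MonoidHom.mem_ker]
    unfold bcom bmap
    rw [map_mul, map_mul, map_mul, map_inv, map_inv, FreeGroup.lift_apply_of,
      FreeGroup.lift_apply_of]
    show xx S (uvec p.1) * xx S (uvec p.2) * (xx S (uvec p.1))⁻¹ * (xx S (uvec p.2))⁻¹ = 1
    rw [xx_comm, mul_inv_cancel_right, mul_inv_cancel]
  · intro w hw
    rw [MonoidHom.mem_ker] at hw
    have h1 := bth_bmap S J w
    rw [hw, map_one] at h1
    exact (QuotientGroup.eq_one_iff w).1 h1.symm

end Pool.Agent.NegK.Hig.H50
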