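import Pool.Agent.Lib.MP_28303a_al.HIG.Iface
import Pool.Agent.Lib.MP_28303a_al.NK.Iface2

/-! # Module GRP: the group theoretic result -/

set_option autoImplicit false

namespace Pool.Agent.NegK.Hig.H50

open Pool.Agent.NegK.Hig Pool.Agent.NegK

theorem torsionFree_prod {G H : Type} [Group G] [Group H] (hG : TorsionFree G)
    (hH : TorsionFree H) : TorsionFree (G × H) := by
  intro x n hn hx
  obtain ⟨a, b⟩ := x
  have h1 : a ^ n = 1 := congrArg Prod.fst hx
  have h2 : b ^ n = 1 := congrArg Prod.snd hx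
  exact Prod.ext (hG a n hn h1) (hH b n hn h2)

theorem grp (hHigm : HigmStatement) (hOne : OneStatement) (hDbl : DblStatement)
    (hRope : RopeStatement) (hHnntf : HnntfStatement) : GrpStatement := by
  intro m N _ hN hTF
  obtain ⟨K, _, i, L, hi, hfp, htf, hLfg, hLN⟩ := hHigm m N hN
  have hone := hOne L K L.subtype L.subtype L.subtype_injective L.subtype_injective
  obtain ⟨hC, ψ, hψ1, hψ2⟩ := hDbl K i L N hi hLN _ _ _ hone
  refine ⟨_, inferInstance, _, inferInstance, incA _ _, incB _ ψ, incA_inj _ _, incB_inj _ _,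
    hC, ?_, ?_⟩
  · refine hRope _ _ _ N (hone.fp hfp fun _ => (Group.fg_iff_subgroup_fg L).2 hLfg) ?_ ψ hψ1 hψ2
    intro f hf
    have hfL : i f ∈ L := by
      rw [← hLN] at hf
      exact hf
    have h1 := hone.rel () (⟨i f, hfL⟩ : L)
    have h2 : (HNNExtension.t : Hnn L.subtype_injective L.subtype_injective) *
        HNNExtension.of (i f) = HNNExtension.of (i f) * HNNExtension.t := h1
    show (HNNExtension.t : Hnn L.subtype_injective L.subtype_injective)⁻¹ *
      HNNExtension.of (i f) * HNNExtension.t = HNNExtension.of (i f)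
    rw [mul_assoc, ← h2, inv_mul_cancel_left]
  · exact hHnntf _ _ _ _ (torsionFree_prod (hone.tf htf) hTF)

end Pool.Agent.NegK.Hig.H50
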