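import Pool.Agent.Lib.MP_28303a_al.HIG.Iface

/-! # Module HIG: the final theorem of the group theoretic part -/

set_option autoImplicit false

namespace Pool.Agent.NegK.Hig.H50

open Pool.Agent.NegK.Hig Pool.Agent.NegK

theorem hig (hGrp : GrpStatement) (hMach : MachStatement) (hIsore : IsoreStatement)
    (hRelre : RelreStatement) : HigStatement := by
  obtain ⟨f, hf, hfr⟩ := hRelre
  obtain ⟨m, hm⟩ := hMach _ (hIsore f hf)
  rw [hfr] at hm
  exact hGrp m (isol rel2) hm (torsionFree_TQ rel2)

end Pool.Agent.NegK.Hig.H50
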