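import Pool.Agent.Lib.MP_28303a_al.HIG.Iface

/-! # Module HIGM: a finitely presented torsionfree group with a benign normal subgroup -/

set_option autoImplicit false

namespace Pool.Agent.NegK.Hig.H50

open Pool.Agent.NegK.Hig SemidirectProduct

theorem fc_injective (m : Mach) : Function.Injective m.fc := by
  have h : Function.Injective fun j : Fin 2 => ((.inr (.inr j), 0) : m.S × m.L) := by
    intro a b hab
    simpa using hab
  exact FreeGroup.map_injective h

theorem ic_injective (m : Mach) : Function.Injective m.ic := by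
  unfold Mach.ic
  rw [MonoidHom.coe_comp]
  exact inl_injective.comp (fc_injective m)

theorem fg_of_fp {G : Type} [Group G] (h : Group.IsFinitelyPresented G) : Group.FG G := by
  obtain ⟨n, φ, hφ, -⟩ := h.out
  exact Group.fg_of_surjective hφ

theorem higm (hIter : IterStatement) (hBastf : BastfStatement) (hBasfp : BasfpStatement)
    (hInjm : InjmStatement) (hRcomp : RcompStatement) (hInt : IntStatement)
    (hPfree : PfreeStatement) (hZcomp : ZcompStatement) (hLgen : LgenStatement) :
    HigmStatement := by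
  intro m N hN
  have h := hInjm m
  have : Finite (m.J → ZMod 5) := Pi.finite
  obtain ⟨Gr, _, e, r, hr⟩ := hIter m.K (m.Q × (m.J → ZMod 5)) (m.rsys h)
  obtain ⟨G1, _, e1, p, h1⟩ := hIter Gr Sg ((m.psys h).push e hr.inj)
  obtain ⟨hα, hβ⟩ := hPfree m h Gr e hr.inj G1 e1 p h1
  obtain ⟨G2, _, e2, z, h2⟩ := hIter G1 Unit (psys1 hα hβ)
  refine ⟨G2, inferInstance, e2.comp (e1.comp (e.comp m.ic)),
    gen e2 z ((gen e r (m.H0 N)).map e1), ?_, ?_, ?_, ?_, ?_⟩
  · simp only [MonoidHom.coe_comp]
    exact h2.inj.comp (h1.inj.comp (hr.inj.comp (ic_injective m)))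
  · refine h2.fp (h1.fp (hr.fp (hBasfp _ _) ?_) ?_) ?_
    · intro i
      exact fg_of_fp (hBasfp Unit m.J)
    · intro i
      exact fg_of_fp (hBasfp S3 m.J)
    · intro i
      exact (inferInstance : Group.FG (FreeGroup (Option Sg)))
  · exact h2.tf (h1.tf (hr.tf (hBastf _ _)))
  · exact hLgen m h N hN Gr e r hr G1 e1 p h1 hα hβ G2 e2 z h2
  · obtain ⟨-, -, -, -, hic⟩ := hInt m N hN
    ext f
    rw [Subgroup.mem_comap]
    constructor
    · intro hf
      have h3 : e1 (e (m.ic f)) ∈ (gen e r (m.H0 N)).map e1 :=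
        h2.sub _ (fun _ c => hZcomp m h N hN Gr e r hr G1 e1 p h1 c) _ hf
      obtain ⟨y, hy, hye⟩ := h3
      have hy2 : y = e (m.ic f) := h1.inj hye
      subst hy2
      have h4 : m.ic f ∈ m.H0 N := hr.sub _ (hRcomp m h N) _ hy
      rw [← hic]
      exact h4
    · intro hf
      refine gen_of e2 z ⟨e (m.ic f), gen_of e r ?_, rfl⟩
      rw [← hic] at hf
      exact hf

end Pool.Agent.NegK.Hig.H50
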