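import Pool.Agent.Lib.MP_28303a_al.HIG.H15.Mach
import Pool.Agent.Lib.MP_28303a_al.HIG.H19.Lgen
import Pool.Agent.Lib.MP_28303a_al.HIG.H19.Pfree
import Pool.Agent.Lib.MP_28303a_al.HIG.H45.Zcomp
import Pool.Agent.Lib.MP_28303a_al.HIG.H22.Bastf
import Pool.Agent.Lib.MP_28303a_al.HIG.H50.Basfp
import Pool.Agent.Lib.MP_28303a_al.HIG.H50.Grp
import Pool.Agent.Lib.MP_28303a_al.HIG.H50.Hig
import Pool.Agent.Lib.MP_28303a_al.HIG.H50.Higm
import Pool.Agent.Lib.MP_28303a_al.HIG.H50.Iter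
import Pool.Agent.Lib.MP_28303a_al.HIG.H57.One
import Pool.Agent.Lib.MP_28303a_al.HIG.H57.Fph
import Pool.Agent.Lib.MP_28303a_al.HIG.H57.Hsub
import Pool.Agent.Lib.MP_28303a_al.HIG.H64.Geq
import Pool.Agent.Lib.MP_28303a_al.HIG.H64.Rope
import Pool.Agent.Lib.MP_28303a_al.HIG.H7.Isore
import Pool.Agent.Lib.MP_28303a_al.HIG.H7.Relre
import Pool.Agent.Lib.MP_28303a_al.HIG.H78.Dbl
import Pool.Agent.Lib.MP_28303a_al.HIG.H94.ZCL
import Pool.Agent.Lib.MP_28303a_al.HIG.H97.Int
import Pool.Agent.Lib.MP_28303a_al.HIG.H97.Pcomp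
import Pool.Agent.Lib.MP_28303a_al.HIG.H97.Rcomp
import Pool.Agent.Lib.MP_28303a_al.NK.H12.Hnntf

/-! # All modules of the Higman embedding together -/

set_option autoImplicit false

namespace Pool.Agent.NegK.Hig.H50

open Pool.Agent.NegK.Hig Pool.Agent.NegK

theorem one' : OneStatement := H57.one H57.hsub H12.hnntf H57.fph

theorem hig_all : HigStatement := by
  have hR : RcompStatement := H97.rcomp H94.zcl
  have hP : PcompStatement := H97.pcomp
  have hF : PfreeStatement := H19.pfree hP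
  have hL : LgenStatement := H19.lgen H19.conj
  have hZ : ZcompStatement := H45.zcomp hR hP H97.int H19.conj hF
  have hH : HigmStatement := higm (iter one') H22.bastf basfp H94.injm hR H97.int hF hZ hL
  exact hig (grp hH one' H78.dbl H64.rope H12.hnntf) H15.mach H7.isore H7.relre

end Pool.Agent.NegK.Hig.H50
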