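import Pool.Agent.Lib.MP_28303a_al.HIG.H50.Univt
import Pool.Agent.Lib.MP_28303a_al.HIG.Iface
import Pool.Agent.Lib.MP_28303a_al.NK.H91.KE

/-! # Assembly: a finitely presented universal torsionfree group -/

set_option autoImplicit false

namespace Pool.Agent.NegK.Hig.H50

open Pool.Agent.NegK.Hig Pool.Agent.NegK

universe u

/-- Injectivity of `K_{-1}` for the base group of an HNN extension (helper6). -/
def HnnInjStatement : Prop :=
  ∀ (R : Type u) [Ring R], RegularRing R → ∀ (G : Type) [Group G] (A B : Subgroup G) (φ : A ≃* B),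
    Subsingleton (KNeg 1 (MonoidAlgebra R A)) →
    Subsingleton (KNeg 1 (MonoidAlgebra R (HNNExtension G A B φ))) →
    Subsingleton (KNeg 1 (MonoidAlgebra R G))

theorem sub_of_equiv {R : Type u} [Ring R] {G H : Type} [Group G] [Group H] (e : G ≃* H)
    (h : Subsingleton (KNeg 1 (MonoidAlgebra R G))) :
    Subsingleton (KNeg 1 (MonoidAlgebra R H)) :=
  (KNegFun 1).subsingleton_congr (MonoidAlgebra.mapDomainRingEquiv R e.symm) h

theorem sub_of_retract {R : Type u} [Ring R] {G H : Type} [Group G] [Group H] (i : G →* H)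
    (p : H →* G) (hp : p.comp i = MonoidHom.id G)
    (h : Subsingleton (KNeg 1 (MonoidAlgebra R H))) :
    Subsingleton (KNeg 1 (MonoidAlgebra R G)) := by
  refine (KNegFun 1).subsingleton_of_retract
      (MonoidAlgebra.mapDomainRingHom R i)
      (MonoidAlgebra.mapDomainRingHom R p) ?_ h
  rw [← MonoidAlgebra.mapDomainRingHom_comp, hp, MonoidAlgebra.mapDomainRingHom_id]

/-- `K_{-1}(R[C]) = 0` if `C` maps onto a free group of rank two, with a section and a free
kernel. -/
theorem sub_of_fbf {R : Type u} [Ring R] (hR : RegularRing R) {C : Type} [Group C]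
    (hC : IsFbF C) : Subsingleton (KNeg 1 (MonoidAlgebra R C)) := by
  obtain ⟨π, σ, h1, h2⟩ := hC
  obtain ⟨X, ⟨b⟩⟩ := h2
  exact H91.ke π σ (fun w => DFunLike.congr_fun h1 w) b.repr R hR

/-- The property of all torsionfree groups. -/
theorem all_iff_univt (R : Type u) [Ring R] :
    (∀ (G : Type u) [Group G], TorsionFree G →
        ∀ n : ℕ, Subsingleton (KNeg (n + 1) (MonoidAlgebra R G))) ↔
      Subsingleton (KNeg 1 (MonoidAlgebra R UT)) := by
  constructor
  · intro h
    have h1 : Subsingleton (KNeg 1 (MonoidAlgebra R (ULift.{u} UT))) :=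
      h (ULift.{u} UT) (torsionFree_ulift (torsionFree_TQ relU)) 0
    exact (KNegFun 1).subsingleton_congr
      (MonoidAlgebra.mapDomainRingEquiv R (MulEquiv.ulift : ULift.{u} UT ≃* UT).symm) h1
  · intro h G _ hG n
    exact all_of_one R (fun G _ hG => univt R h G hG) n G hG

/-- From `GU` to `UT`. -/
theorem ut_of_gu (hGeq : GeqStatement) (hInj : HnnInjStatement.{u}) (R : Type u) [Ring R]
    (hR : RegularRing R) (h : Subsingleton (KNeg 1 (MonoidAlgebra R GU))) :
    Subsingleton (KNeg 1 (MonoidAlgebra R UT)) := by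
  obtain ⟨A, B, φ, ⟨eA⟩, ⟨e⟩⟩ := hGeq
  have h1 : Subsingleton (KNeg 1 (MonoidAlgebra R A)) :=
    sub_of_equiv eA.symm (H64.kfree (H78.lreg H50.ext) H50.free R hR)
  have h2 := hInj R hR _ A B φ h1 (sub_of_equiv e.symm h)
  exact sub_of_retract (MonoidHom.inl UT F2) (MonoidHom.fst UT F2) (MonoidHom.fst_comp_inl) h2

/-- The final theorem. -/
theorem final (hHig : HigStatement) (hGeq : GeqStatement) (hInj : HnnInjStatement.{u}) :
    ∃ (Γ : Type) (_ : Group Γ), Group.IsFinitelyPresented Γ ∧ TorsionFree Γ ∧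
      ∀ (R : Type u) [Ring R], RegularRing R →
        ((∀ (G : Type u) [Group G], TorsionFree G →
          ∀ n : ℕ, Subsingleton (KNeg (n + 1) (MonoidAlgebra R G))) ↔
        Subsingleton (KNeg 1 (MonoidAlgebra R Γ))) := by
  obtain ⟨G, _, C, _, α, β, hα, hβ, hC, hfp, htf⟩ := hHig
  refine ⟨Hnn hα hβ, inferInstance, hfp, htf, fun R _ hR => ⟨fun h => ?_, fun h => ?_⟩⟩
  · have h1 : Subsingleton (KNeg 1 (MonoidAlgebra R (ULift.{u} (Hnn hα hβ)))) :=
      h (ULift.{u} (Hnn hα hβ)) (torsionFree_ulift htf) 0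
    exact (KNegFun 1).subsingleton_congr
      (MonoidAlgebra.mapDomainRingEquiv R
        (MulEquiv.ulift : ULift.{u} (Hnn hα hβ) ≃* Hnn hα hβ).symm) h1
  · refine (all_iff_univt R).2 (ut_of_gu hGeq hInj R hR ?_)
    have h1 : Subsingleton (KNeg 1 (MonoidAlgebra R α.range)) :=
      sub_of_equiv (MonoidHom.ofInjective hα) (sub_of_fbf hR hC)
    have h2 := hInj R hR _ _ _ _ h1 h
    exact sub_of_retract (MonoidHom.inr G GU) (MonoidHom.snd G GU) (MonoidHom.snd_comp_inr) h2

end Pool.Agent.NegK.Hig.H50
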