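import Pool.Agent.Lib.MP_28303a_al.NK.Final

/-! # Injectivity of `K_{-1}` for the base group of an HNN extension

The proof is the one of `kneg_hnn` (helper6). -/

set_option autoImplicit false

namespace Pool.Agent.NegK

universe u

open H64 (swapEquiv)

theorem mk_eq_zero {A : Type u} [Ring A] (z : K0 (LaurentPolynomial A)) :
    (QuotientAddGroup.mk' (K0Fun.polySub A) z : KNeg 1 A) = 0 ↔ z ∈ K0Fun.polySub A :=
  QuotientAddGroup.eq_zero_iff z

/-- The vertex group of an HNN extension: if `K_{-1}` of the group ring of the associated subgroup
vanishes, then `K_{-1}` of the group ring of the base group is a subgroup of `K_{-1}` of the group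
ring of the HNN extension. -/
theorem Hig.H50.kneg_hnn_inj (R : Type u) [Ring R] (K : Type) [Group K] (A B : Subgroup K) (φ : A ≃* B)
    (hA : Subsingleton (KNeg 1 (MonoidAlgebra R A))) :
    Function.Injective ((KNegFun 1).hom (MonoidAlgebra.mapDomainRingHom R
      (HNNExtension.of : K →* HNNExtension K A B φ))) := by
  obtain ⟨S, hS⟩ := H21.hnnt K A B φ
  let of' : K →* HNNExtension K A B φ := HNNExtension.of
  have hof : Function.Injective of' := HNNExtension.of_injective φ
  have hR : Subsingleton (KNeg 1 R) := by
    refine (KNegFun 1).subsingleton_of_retract (MonoidAlgebra.singleOneRingHom)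
      (MonoidAlgebra.liftNCRingHom (RingHom.id R) (1 : A →* R)
        (fun _ _ => Commute.one_right _)) ?_ hA
    ext r
    have h1 := MonoidAlgebra.liftNCRingHom_single (RingHom.id R) (1 : A →* R)
      (fun _ _ => Commute.one_right _) 1 r
    refine Eq.trans h1 ?_
    simp
  have hB : Subsingleton (KNeg 1 (MonoidAlgebra R B)) :=
    (KNegFun 1).subsingleton_congr (MonoidAlgebra.mapDomainRingEquiv R φ).symm hA
  let A' : Bool → Subgroup (HNNExtension K A B φ) := fun b => (if b then A else B).map of'
  have hA' : ∀ b, Subsingleton (KNeg 1 (MonoidAlgebra R (A' b))) := by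
    intro b
    cases b with
    | false => exact (KNegFun 1).subsingleton_congr (MonoidAlgebra.mapDomainRingEquiv R
        (B.equivMapOfInjective of' hof)).symm hB
    | true => exact (KNegFun 1).subsingleton_congr (MonoidAlgebra.mapDomainRingEquiv R
        (A.equivMapOfInjective of' hof)).symm hA
  let e : K ≃* of'.range := MonoidHom.ofInjective hof
  have key : ∀ z : K0 (LaurentPolynomial (MonoidAlgebra R K)),
      K0.map (lmap (MonoidAlgebra.mapDomainRingHom R of')) z = 0 →
      z ∈ K0Fun.polySub (MonoidAlgebra R K) := by
    intro z hz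
    let z1 : K0 (MonoidAlgebra (LaurentPolynomial R) of'.range) :=
      K0.map (MonoidAlgebra.mapDomainRingHom (LaurentPolynomial R) (e : K →* of'.range))
        (K0.map ((swapEquiv R K).symm :
          LaurentPolynomial (MonoidAlgebra R K) →+* MonoidAlgebra (LaurentPolynomial R) K) z)
    have hz1 : K0.map (MonoidAlgebra.mapDomainRingHom (LaurentPolynomial R) of'.range.subtype) z1 = 0 := by
      show K0.map (MonoidAlgebra.mapDomainRingHom (LaurentPolynomial R) of'.range.subtype)
        (K0.map (MonoidAlgebra.mapDomainRingHom (LaurentPolynomial R) (e : K →* of'.range))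
        (K0.map ((swapEquiv R K).symm :
          LaurentPolynomial (MonoidAlgebra R K) →+* MonoidAlgebra (LaurentPolynomial R) K) z)) = 0
      rw [K0.map_map, K0.map_map, ← MonoidAlgebra.mapDomainRingHom_comp]
      have h1 : of'.range.subtype.comp (e : K →* of'.range) = of' := by
        ext x
        rfl
      rw [h1]
      have h2 : (MonoidAlgebra.mapDomainRingHom (LaurentPolynomial R) of').comp
          ((swapEquiv R K).symm :
          LaurentPolynomial (MonoidAlgebra R K) →+* MonoidAlgebra (LaurentPolynomial R) K) =
          ((swapEquiv R (HNNExtension K A B φ)).symm : _ →+* _).comp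
            (lmap (MonoidAlgebra.mapDomainRingHom R of')) := by
        refine RingHom.ext fun x => ?_
        show MonoidAlgebra.mapDomainRingHom (LaurentPolynomial R) of' ((swapEquiv R K).symm x) =
          (swapEquiv R (HNNExtension K A B φ)).symm
            (lmap (MonoidAlgebra.mapDomainRingHom R of') x)
        rw [RingEquiv.eq_symm_apply]
        have h3 := RingHom.congr_fun (swap_nat R of') ((swapEquiv R K).symm x)
        refine Eq.trans h3 ?_
        show lmap (MonoidAlgebra.mapDomainRingHom R of')
          (swapEquiv R K ((swapEquiv R K).symm x)) = _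
        rw [RingEquiv.apply_symm_apply]
      rw [h2, ← K0.map_map, hz, map_zero]
    have h1 := H91.vert (LaurentPolynomial R) (HNNExtension K A B φ) of'.range Bool A' S hS z1 hz1
    let ρ : MonoidAlgebra (LaurentPolynomial R) of'.range →+* LaurentPolynomial (MonoidAlgebra R K) :=
      (swapEquiv R K : _ →+* _).comp
        (MonoidAlgebra.mapDomainRingHom (LaurentPolynomial R) (e.symm : of'.range →* K))
    have hρ : K0.map ρ z1 = z := by
      show K0.map ρ (K0.map (MonoidAlgebra.mapDomainRingHom (LaurentPolynomial R) (e : K →* of'.range))
        (K0.map ((swapEquiv R K).symm :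
          LaurentPolynomial (MonoidAlgebra R K) →+* MonoidAlgebra (LaurentPolynomial R) K) z)) = z
      rw [K0.map_map, K0.map_map]
      have h2 : (ρ.comp (MonoidAlgebra.mapDomainRingHom (LaurentPolynomial R) (e : K →* of'.range))).comp
          ((swapEquiv R K).symm :
          LaurentPolynomial (MonoidAlgebra R K) →+* MonoidAlgebra (LaurentPolynomial R) K) = RingHom.id _ := by
        refine RingHom.ext fun x => ?_
        have h3 : (MonoidAlgebra.mapDomainRingHom (LaurentPolynomial R)
            (e.symm : of'.range →* K)).comp (MonoidAlgebra.mapDomainRingHom (LaurentPolynomial R)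
            (e : K →* of'.range)) = RingHom.id _ := by
          rw [← MonoidAlgebra.mapDomainRingHom_comp]
          have h4 : (e.symm : of'.range →* K).comp (e : K →* of'.range) = MonoidHom.id K := by
            ext x
            exact e.symm_apply_apply x
          rw [h4, MonoidAlgebra.mapDomainRingHom_id]
        have h5 := RingHom.congr_fun h3 ((swapEquiv R K).symm x)
        refine Eq.trans (congrArg (swapEquiv R K) h5) ?_
        exact (swapEquiv R K).apply_symm_apply x
      rw [h2, K0.map_id]
    rw [← hρ]
    have h4 : (K0.map (MonoidAlgebra.singleOneRingHom : LaurentPolynomial R →+* MonoidAlgebra (LaurentPolynomial R) of'.range)).range ⊔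
        ⨆ j, (K0.map (MonoidAlgebra.mapDomainRingHom (LaurentPolynomial R)
          (Subgroup.inclusion (hS.le j)))).range ≤
        (K0Fun.polySub (MonoidAlgebra R K)).comap (K0.map ρ) := by
      refine sup_le ?_ (iSup_le fun j => ?_)
      · rintro _ ⟨y, rfl⟩
        show K0.map ρ (K0.map _ y) ∈ K0Fun.polySub (MonoidAlgebra R K)
        rw [K0.map_map]
        have h5 : ρ.comp (MonoidAlgebra.singleOneRingHom : LaurentPolynomial R →+* MonoidAlgebra (LaurentPolynomial R) of'.range) =
            lmap (MonoidAlgebra.singleOneRingHom : R →+* MonoidAlgebra R K) := by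
          rw [← swap_one R K]
          show ((swapEquiv R K : MonoidAlgebra (LaurentPolynomial R) K →+*
            LaurentPolynomial (MonoidAlgebra R K)).comp
            (MonoidAlgebra.mapDomainRingHom (LaurentPolynomial R) (e.symm : of'.range →* K))).comp _ = _
          rw [RingHom.comp_assoc]
          congr 1
          refine RingHom.ext fun x => ?_
          show MonoidAlgebra.mapDomainRingHom (LaurentPolynomial R) (e.symm : of'.range →* K)
            (MonoidAlgebra.single 1 x) = MonoidAlgebra.single 1 x
          rw [MonoidAlgebra.mapDomainRingHom_apply, MonoidAlgebra.mapDomain_single, map_one]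
        rw [h5]
        refine K0Fun.polySub_le_comap (MonoidAlgebra.singleOneRingHom : R →+*
          MonoidAlgebra R K) ?_
        rw [polySub_eq_top_of hR]
        exact AddSubgroup.mem_top _
      · rintro _ ⟨y, rfl⟩
        show K0.map ρ (K0.map _ y) ∈ K0Fun.polySub (MonoidAlgebra R K)
        rw [K0.map_map]
        have h5 : ρ.comp (MonoidAlgebra.mapDomainRingHom (LaurentPolynomial R) (Subgroup.inclusion (hS.le j))) =
            (lmap (MonoidAlgebra.mapDomainRingHom R ((e.symm : of'.range →* K).comp
              (Subgroup.inclusion (hS.le j))))).comp (swapEquiv R (A' j) : _ →+* _) := by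
          rw [← swap_nat R]
          show ((swapEquiv R K : MonoidAlgebra (LaurentPolynomial R) K →+*
            LaurentPolynomial (MonoidAlgebra R K)).comp
            (MonoidAlgebra.mapDomainRingHom (LaurentPolynomial R) (e.symm : of'.range →* K))).comp _ = _
          rw [RingHom.comp_assoc, ← MonoidAlgebra.mapDomainRingHom_comp]
        rw [h5, ← K0.map_map]
        refine K0Fun.polySub_le_comap (MonoidAlgebra.mapDomainRingHom R
          ((e.symm : of'.range →* K).comp (Subgroup.inclusion (hS.le j)))) ?_
        rw [polySub_eq_top_of (hA' j)]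
        exact AddSubgroup.mem_top _
    exact h4 h1
  rw [injective_iff_map_eq_zero]
  intro x hx
  obtain ⟨z, rfl⟩ := QuotientAddGroup.mk'_surjective _ x
  have h1 : (KNegFun 1).hom (MonoidAlgebra.mapDomainRingHom R of')
      (QuotientAddGroup.mk' (K0Fun.polySub (MonoidAlgebra R K)) z) =
      QuotientAddGroup.mk' (K0Fun.polySub (MonoidAlgebra R (HNNExtension K A B φ)))
        (K0.map (lmap (MonoidAlgebra.mapDomainRingHom R of')) z) := rfl
  have h3 := (mk_eq_zero _).1 (h1.symm.trans hx)
  exact (mk_eq_zero _).2 (inj (MonoidAlgebra R K)
    (MonoidAlgebra R (HNNExtension K A B φ)) (MonoidAlgebra.mapDomainRingHom R of') key z h3)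

end Pool.Agent.NegK
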