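import Pool.Agent.Lib.MP_28303a_al.NK.Lift
import Mathlib.GroupTheory.FinitelyPresentedGroup

/-! # Finitely presented torsionfree groups are retracts of table groups -/

set_option autoImplicit false

namespace Pool.Agent.NegK.Hig.H50

open Pool.Agent.NegK

universe u v

/-- The values of all prefixes of a word. -/
def prefs {G : Type v} [Group G] {n : ℕ} (φ : FreeGroup (Fin n) →* G)
    (L : List (Fin n × Bool)) : Set G := (fun M => φ (FreeGroup.mk M)) '' {M | M <+: L}

theorem prefs_finite {G : Type v} [Group G] {n : ℕ} (φ : FreeGroup (Fin n) →* G)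
    (L : List (Fin n × Bool)) : (prefs φ L).Finite := by
  refine Set.Finite.image _ ?_
  have h : {M | M <+: L} = {M | M ∈ L.inits} := by
    ext M
    exact (List.mem_inits M L).symm
  rw [h]
  exact List.finite_toSet _

/-- A finitely presented group is a retract of the group of a table. -/
theorem exists_retract {G : Type v} [Group G] (h : Group.IsFinitelyPresented G) :
    ∃ (T : Table) (σ : G →* T.grp) (π : T.grp →* G), π.comp σ = MonoidHom.id G := by
  classical
  obtain ⟨n, φ, hφ, W, hW, hWφ⟩ := h.out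
  let S0 : Set G := ({1} ∪ Set.range (fun i : Fin n × Bool => φ (FreeGroup.mk [i]))) ∪
    ⋃ w ∈ W, prefs φ w.toWord
  have hS0 : S0.Finite :=
    ((Set.finite_singleton _).union (Set.finite_range _)).union
      (hW.biUnion fun w _ => prefs_finite φ _)
  obtain ⟨T, π, s, hs, hπ⟩ := exists_table hS0.toFinset
  have hs' : ∀ a ∈ S0, ∀ b ∈ S0, s (a * b) = s a * s b := fun a ha b hb =>
    hs a (hS0.mem_toFinset.2 ha) b (hS0.mem_toFinset.2 hb)
  have hπ' : ∀ a ∈ S0, π (s a) = a := fun a ha => hπ a (hS0.mem_toFinset.2 ha)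
  have m1 : (1 : G) ∈ S0 := Or.inl (Or.inl rfl)
  have ml : ∀ i : Fin n × Bool, φ (FreeGroup.mk [i]) ∈ S0 := fun i => Or.inl (Or.inr ⟨i, rfl⟩)
  have s1 : s 1 = 1 := by
    have h1 := hs' 1 m1 1 m1
    rw [mul_one] at h1
    exact (mul_eq_left.1 h1.symm)
  let σ' : FreeGroup (Fin n) →* T.grp := FreeGroup.lift fun i => s (φ (FreeGroup.of i))
  have hlet : ∀ i : Fin n × Bool, σ' (FreeGroup.mk [i]) = s (φ (FreeGroup.mk [i])) := by
    rintro ⟨i, b⟩
    have ht : σ' (FreeGroup.mk [(i, true)]) = s (φ (FreeGroup.mk [(i, true)])) := by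
      show FreeGroup.lift _ (FreeGroup.of i) = _
      rw [FreeGroup.lift_apply_of]
      rfl
    cases b with
    | true => exact ht
    | false =>
      have e1 : (FreeGroup.mk [(i, false)] : FreeGroup (Fin n)) = (FreeGroup.mk [(i, true)])⁻¹ := by
        rw [FreeGroup.inv_mk]
        rfl
      have h1 := hs' _ (ml (i, true)) _ (ml (i, false))
      rw [← map_mul, e1, mul_inv_cancel, map_one, s1] at h1
      rw [e1, map_inv, ht]
      exact (eq_inv_of_mul_eq_one_right h1.symm).symm
  have hpre : ∀ w ∈ W, ∀ M : List (Fin n × Bool), M <+: w.toWord →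
      σ' (FreeGroup.mk M) = s (φ (FreeGroup.mk M)) := by
    intro w hw M
    induction M using List.reverseRecOn with
    | nil =>
      intro _
      show σ' 1 = s (φ 1)
      rw [map_one, map_one, s1]
    | append_singleton M i ih =>
      intro hM
      have hM' : M <+: w.toWord := (List.prefix_append M [i]).trans hM
      have e1 : (FreeGroup.mk (M ++ [i]) : FreeGroup (Fin n)) = FreeGroup.mk M * FreeGroup.mk [i] :=
        FreeGroup.mul_mk.symm
      have mM : φ (FreeGroup.mk M) ∈ S0 :=
        Or.inr (Set.mem_biUnion hw ⟨M, hM', rfl⟩)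
      rw [e1, map_mul, ih hM', hlet, map_mul, hs' _ mM _ (ml i)]
  have hker : φ.ker ≤ σ'.ker := by
    rw [← hWφ]
    refine Subgroup.normalClosure_le_normal ?_
    intro w hw
    show w ∈ σ'.ker
    rw [MonoidHom.mem_ker]
    have h1 := hpre w hw w.toWord (List.prefix_refl _)
    rw [FreeGroup.mk_toWord] at h1
    have h2 : φ w = 1 := by
      have h3 : w ∈ φ.ker := by
        rw [← hWφ]
        exact Subgroup.subset_normalClosure hw
      exact (MonoidHom.mem_ker).1 h3
    rw [h1, h2, s1]
  refine ⟨T, φ.liftOfSurjective hφ ⟨σ', hker⟩, π, ?_⟩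
  refine MonoidHom.ext fun g => ?_
  obtain ⟨w, rfl⟩ := hφ g
  rw [MonoidHom.comp_apply, MonoidHom.liftOfRightInverse_comp_apply, MonoidHom.id_apply]
  show π (σ' w) = φ w
  have h5 : π.comp σ' = φ := by
    refine FreeGroup.ext_hom _ _ fun i => ?_
    rw [MonoidHom.comp_apply]
    exact (congrArg π (hlet (i, true))).trans (hπ' _ (ml (i, true)))
  exact DFunLike.congr_fun h5 w

/-- A finitely presented torsionfree group is a retract of the largest torsionfree quotient of the
group of a table. -/
theorem exists_retract_tf {G : Type v} [Group G] (h : Group.IsFinitelyPresented G)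
    (hG : TorsionFree G) :
    ∃ (T : Table) (i : G →* TF T.grp) (p : TF T.grp →* G), p.comp i = MonoidHom.id G := by
  obtain ⟨T, σ, π, hπ⟩ := exists_retract h
  refine ⟨T, (QuotientGroup.mk' (tfKer T.grp)).comp σ, TF.lift hG π, ?_⟩
  refine MonoidHom.ext fun g => ?_
  exact DFunLike.congr_fun hπ g

end Pool.Agent.NegK.Hig.H50
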