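import Pool.Agent.Lib.MP_28303a_al.HIG.H50.Zoi
import Pool.Agent.Lib.MP_28303a_al.HIG.H50.HnnInj
import Pool.Agent.Lib.MP_28303a_al.HIG.H50.Ret

/-! # Assembly: a finitely presented universal torsionfree group, zero or infinite -/

set_option autoImplicit false

namespace Pool.Agent.NegK.Hig.H50

open Pool.Agent.NegK.Hig Pool.Agent.NegK

universe u

/-- Some homomorphism `X → Y` induces an injective map on `K_{-1}(R[·])`. -/
def KInj (R : Type u) [Ring R] (X Y : Type) [Group X] [Group Y] : Prop :=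
  ∃ f : X →* Y, Function.Injective ((KNegFun 1).hom (MonoidAlgebra.mapDomainRingHom R f))

theorem KInj.trans {R : Type u} [Ring R] {X Y Z : Type} [Group X] [Group Y] [Group Z]
    (h1 : KInj R X Y) (h2 : KInj R Y Z) : KInj R X Z := by
  obtain ⟨f, hf⟩ := h1
  obtain ⟨g, hg⟩ := h2
  refine ⟨g.comp f, ?_⟩
  rw [MonoidAlgebra.mapDomainRingHom_comp, (KNegFun 1).hom_comp]
  exact hg.comp hf

theorem KInj.of_retract {R : Type u} [Ring R] {X Y : Type} [Group X] [Group Y] (i : X →* Y)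
    (p : Y →* X) (h : p.comp i = MonoidHom.id X) : KInj R X Y := by
  refine ⟨i, ?_⟩
  have h1 : ∀ x, (KNegFun 1).hom (MonoidAlgebra.mapDomainRingHom R p)
      ((KNegFun 1).hom (MonoidAlgebra.mapDomainRingHom R i) x) = x := by
    intro x
    rw [← AddMonoidHom.comp_apply, ← (KNegFun 1).hom_comp,
      ← MonoidAlgebra.mapDomainRingHom_comp, h, MonoidAlgebra.mapDomainRingHom_id,
      (KNegFun 1).hom_id]
    rfl
  exact Function.LeftInverse.injective h1

theorem KInj.of_equiv {R : Type u} [Ring R] {X Y : Type} [Group X] [Group Y] (e : X ≃* Y) :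
    KInj R X Y :=
  KInj.of_retract (e : X →* Y) (e.symm : Y →* X) (MonoidHom.ext fun x => e.symm_apply_apply x)

theorem KInj.fg {R : Type u} [Ring R] {X Y : Type} [Group X] [Group Y] (h : KInj R X Y)
    (hY : AddGroup.FG (KNeg 1 (MonoidAlgebra R Y))) :
    AddGroup.FG (KNeg 1 (MonoidAlgebra R X)) := by
  obtain ⟨f, hf⟩ := h
  have h1 : Module.Finite ℤ (KNeg 1 (MonoidAlgebra R Y)) := Module.Finite.iff_addGroup_fg.2 hY
  exact Module.Finite.iff_addGroup_fg.1 (Module.Finite.of_injective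
    ((KNegFun 1).hom (MonoidAlgebra.mapDomainRingHom R f)).toIntLinearMap hf)

/-- `K_{-1}(R UT)` embeds in `K_{-1}(R GU)`. -/
theorem kinj_ut_gu (hGeq : GeqStatement) (R : Type u) [Ring R] (hR : RegularRing R) :
    KInj R UT GU := by
  obtain ⟨A, B, φ, ⟨eA⟩, ⟨e⟩⟩ := hGeq
  have h1 : Subsingleton (KNeg 1 (MonoidAlgebra R A)) := sub_of_equiv eA.symm (kneg_free R hR)
  exact ((KInj.of_retract (MonoidHom.inl UT F2) (MonoidHom.fst UT F2)
    MonoidHom.fst_comp_inl).trans ⟨_, kneg_hnn_inj R (UT × F2) A B φ h1⟩).trans (KInj.of_equiv e)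

/-- `K_{-1}(R GU)` embeds in `K_{-1}(R Γ)` for the last HNN extension. -/
theorem kinj_last (R : Type u) [Ring R] (hR : RegularRing R) {G C : Type} [Group G] [Group C]
    (hC : IsFbF C) {α β : C →* G × GU} (hα : Function.Injective α) (hβ : Function.Injective β) :
    KInj R GU (Hnn hα hβ) := by
  have h1 : Subsingleton (KNeg 1 (MonoidAlgebra R α.range)) :=
    sub_of_equiv (MonoidHom.ofInjective hα) (sub_of_fbf hR hC)
  exact (KInj.of_retract (MonoidHom.inr G GU) (MonoidHom.snd G GU)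
    MonoidHom.snd_comp_inr).trans ⟨_, kneg_hnn_inj R (G × GU) _ _ _ h1⟩

/-- The direct sum of countably many copies of `K_{-1}(R TF(T))` embeds in `K_{-1}(R UT)`. -/
theorem sum_tab (R : Type u) [Ring R] (hR : RegularRing R) (T : Table) :
    ∃ Φ : (ℕ →₀ KNeg 1 (MonoidAlgebra R (TF T.grp))) →+ KNeg 1 (MonoidAlgebra R UT),
      Function.Injective Φ := by
  classical
  let I : ℕ → KNeg 1 (MonoidAlgebra R (TF T.grp)) →+ KNeg 1 (MonoidAlgebra R UT) :=
    fun k => (KNegFun 1).hom (MonoidAlgebra.mapDomainRingHom R (toK T k))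
  let P : ℕ → KNeg 1 (MonoidAlgebra R UT) →+ KNeg 1 (MonoidAlgebra R (TF T.grp)) :=
    fun k => (KNegFun 1).hom (MonoidAlgebra.mapDomainRingHom R (fromK T k))
  have hPI : ∀ k x, P k (I k x) = x := by
    intro k x
    show ((KNegFun 1).hom _) (((KNegFun 1).hom _) x) = x
    rw [← AddMonoidHom.comp_apply, ← (KNegFun 1).hom_comp,
      ← MonoidAlgebra.mapDomainRingHom_comp, fromK_comp_toK, MonoidAlgebra.mapDomainRingHom_id,
      (KNegFun 1).hom_id]
    rfl
  have hPI0 : ∀ k l x, k ≠ l → P k (I l x) = 0 := by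
    intro k l x hkl
    show ((KNegFun 1).hom _) (((KNegFun 1).hom _) x) = 0
    rw [← AddMonoidHom.comp_apply, ← (KNegFun 1).hom_comp,
      ← MonoidAlgebra.mapDomainRingHom_comp, fromK_comp_toK_ne T hkl]
    exact hom_one R hR x
  let Φ : (ℕ →₀ KNeg 1 (MonoidAlgebra R (TF T.grp))) →+ KNeg 1 (MonoidAlgebra R UT) :=
    Finsupp.liftAddHom I
  have hΦ : ∀ f k, P k (Φ f) = f k := by
    intro f k
    show P k (f.sum fun l x => I l x) = f k
    rw [Finsupp.sum, map_sum, Finset.sum_eq_single k]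
    · exact hPI k _
    · intro l _ hl
      exact hPI0 k l _ hl.symm
    · intro hk
      rw [Finsupp.notMem_support_iff.1 hk, map_zero, map_zero]
  refine ⟨Φ, ?_⟩
  intro f g hfg
  refine Finsupp.ext fun k => ?_
  rw [← hΦ f k, ← hΦ g k, hfg]

/-- The direct sum of countably many copies of `K_{-1}(RG)` embeds in `K_{-1}(R UT)` for every
finitely presented torsionfree group `G`. -/
theorem sum_fp (R : Type u) [Ring R] (hR : RegularRing R) (G : Type u) [Group G]
    (hfp : Group.IsFinitelyPresented G) (hG : TorsionFree G) :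
    ∃ Φ : (ℕ →₀ KNeg 1 (MonoidAlgebra R G)) →+ KNeg 1 (MonoidAlgebra R UT),
      Function.Injective Φ := by
  obtain ⟨T, i, p, hp⟩ := exists_retract_tf hfp hG
  obtain ⟨Φ, hΦ⟩ := sum_tab R hR T
  let I : KNeg 1 (MonoidAlgebra R G) →+ KNeg 1 (MonoidAlgebra R (TF T.grp)) :=
    (KNegFun 1).hom (MonoidAlgebra.mapDomainRingHom R i)
  have h1 : ∀ x, (KNegFun 1).hom (MonoidAlgebra.mapDomainRingHom R p) (I x) = x := by
    intro x
    show (KNegFun 1).hom _ ((KNegFun 1).hom _ x) = x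
    rw [← AddMonoidHom.comp_apply, ← (KNegFun 1).hom_comp,
      ← MonoidAlgebra.mapDomainRingHom_comp, hp, MonoidAlgebra.mapDomainRingHom_id,
      (KNegFun 1).hom_id]
    rfl
  have hI : Function.Injective I := Function.LeftInverse.injective h1
  refine ⟨Φ.comp (Finsupp.mapRange.addMonoidHom I), ?_⟩
  rw [AddMonoidHom.coe_comp]
  exact hΦ.comp (Finsupp.mapRange_injective _ (map_zero I) hI)

/-- The properties of a torsionfree group `Γ` with `K_{-1}(R UT) ⊆ K_{-1}(R Γ)`. -/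
theorem props (Γ : Type) [Group Γ] (htf : TorsionFree Γ) (R : Type u) [Ring R]
    (hR : RegularRing R) (key : KInj R UT Γ) :
    ((∀ (G : Type u) [Group G], TorsionFree G →
        ∀ n : ℕ, Subsingleton (KNeg (n + 1) (MonoidAlgebra R G))) ↔
      Subsingleton (KNeg 1 (MonoidAlgebra R Γ))) ∧
    (AddGroup.FG (KNeg 1 (MonoidAlgebra R Γ)) →
      Subsingleton (KNeg 1 (MonoidAlgebra R Γ))) ∧
    (∀ (G : Type u) [Group G], Group.IsFinitelyPresented G → TorsionFree G →
      ∃ Φ : (ℕ →₀ KNeg 1 (MonoidAlgebra R G)) →+ KNeg 1 (MonoidAlgebra R Γ),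
        Function.Injective Φ) := by
  have down : (∀ (G : Type u) [Group G], TorsionFree G →
      ∀ n : ℕ, Subsingleton (KNeg (n + 1) (MonoidAlgebra R G))) →
      Subsingleton (KNeg 1 (MonoidAlgebra R Γ)) := by
    intro h
    have h1 : Subsingleton (KNeg 1 (MonoidAlgebra R (ULift.{u} Γ))) :=
      h (ULift.{u} Γ) (torsionFree_ulift htf) 0
    exact (KNegFun 1).subsingleton_congr
      (MonoidAlgebra.mapDomainRingEquiv R (MulEquiv.ulift : ULift.{u} Γ ≃* Γ).symm) h1
  have up : AddGroup.FG (KNeg 1 (MonoidAlgebra R Γ)) →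
      ∀ (G : Type u) [Group G], TorsionFree G →
        ∀ n : ℕ, Subsingleton (KNeg (n + 1) (MonoidAlgebra R G)) := by
    intro h G _ hG n
    exact all_of_one R (fun G _ hG => zoi_ut R hR (key.fg h) G hG) n G hG
  refine ⟨⟨down, fun h => ?_⟩, fun h => ?_, fun G _ hGfp hG => ?_⟩
  · exact up inferInstance
  · exact down (up h)
  · obtain ⟨Φ, hΦ⟩ := sum_fp R hR G hGfp hG
    obtain ⟨f, hf⟩ := key
    refine ⟨((KNegFun 1).hom (MonoidAlgebra.mapDomainRingHom R f)).comp Φ, ?_⟩
    rw [AddMonoidHom.coe_comp]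
    exact hf.comp hΦ

/-- The finitely presented group of the Higman embedding. -/
theorem exists_fp (hHig : HigStatement) (hGeq : GeqStatement) :
    ∃ (Γ : Type) (_ : Group Γ), Group.IsFinitelyPresented Γ ∧ TorsionFree Γ ∧
      ∀ (R : Type u) [Ring R], RegularRing R → KInj R UT Γ := by
  obtain ⟨G, _, C, _, α, β, hα, hβ, hC, hfp, htf⟩ := hHig
  exact ⟨Hnn hα hβ, inferInstance, hfp, htf, fun R _ hR =>
    (kinj_ut_gu hGeq R hR).trans (kinj_last R hR hC hα hβ)⟩

end Pool.Agent.NegK.Hig.H50
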