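import Pool.Agent.Lib.MP_28303a_al.HIG.Iface

/-! # Module ITER: finitely many stable letters -/

set_option autoImplicit false

namespace Pool.Agent.NegK.Hig.H50

open Pool.Agent.NegK.Hig HNNExtension

/-- Reindexing a system. -/
def PSys.reix {K : Type} [Group K] {I J : Type} (P : PSys K I) (r : J → I) : PSys K J where
  C j := P.C (r j)
  grp j := P.grp (r j)
  α j := P.α (r j)
  β j := P.β (r j)
  α_inj j := P.α_inj (r j)
  β_inj j := P.β_inj (r j)

theorem iter_equiv {K : Type} [Group K] {I J : Type} (q : J ≃ I) (P : PSys K I) {G : Type}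
    [Group G] {e : K →* G} {s : J → G} (h : IsHNN (PSys.reix P q) e s) :
    IsHNN P e (fun i => s (q.symm i)) := by
  have hr : Set.range (fun i => s (q.symm i)) = Set.range s := by
    ext x
    constructor
    · rintro ⟨i, rfl⟩
      exact ⟨_, rfl⟩
    · rintro ⟨j, rfl⟩
      exact ⟨q j, by simp⟩
  have hg : ∀ H : Subgroup K, gen e (fun i => s (q.symm i)) H = gen e s H := by
    intro H
    unfold gen
    rw [hr]
  have hc : ∀ H : Subgroup K, P.Compat H → (PSys.reix P q).Compat H := fun H hH j c => hH (q j) c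
  refine ⟨h.inj, ?_, ?_, ?_, ?_, h.tf, ?_⟩
  · intro i c
    obtain ⟨j, rfl⟩ := q.surjective i
    simp only [Equiv.symm_apply_apply]
    exact h.rel j c
  · rw [hg]
    exact h.gen_top
  · intro H hH x hx
    rw [hg] at hx
    exact h.sub H (hc H hH) x hx
  · intro H hH X _ f σ hσ
    obtain ⟨F, hF1, hF2⟩ := h.lift H (hc H hH) X f (fun j => σ (q j)) (fun j c => hσ (q j) c)
    refine ⟨F.comp (Subgroup.inclusion (hg H).le), fun h => ?_, fun i => ?_⟩
    · exact hF1 h
    · obtain ⟨j, rfl⟩ := q.surjective i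
      rw [← hF2 j]
      rw [MonoidHom.comp_apply]
      congr 1
      exact Subtype.ext (by simp)
  · intro hfp hfg
    exact h.fp hfp fun j => hfg (q j)

/-- No stable letter. -/
theorem iter_empty {K : Type} [Group K] {I : Type} [IsEmpty I] (P : PSys K I) :
    IsHNN P (MonoidHom.id K) (fun i : I => isEmptyElim i) := by
  have hr : Set.range (fun i : I => (isEmptyElim i : K)) = ∅ := Set.range_eq_empty _
  have hg : ∀ H : Subgroup K, gen (MonoidHom.id K) (fun i : I => (isEmptyElim i : K)) H = H := by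
    intro H
    unfold gen
    rw [hr, Set.union_empty]
    simp
  refine ⟨Function.injective_id, fun i => isEmptyElim i, hg ⊤, ?_, ?_, id, fun h _ => h⟩
  · intro H _ x hx
    rw [hg] at hx
    exact hx
  · intro H _ X _ f σ _
    exact ⟨f.comp (Subgroup.inclusion (hg H).le), fun h => rfl, fun i => isEmptyElim i⟩

/-- One more stable letter. -/
theorem iter_option (hOne : OneStatement) {K : Type} [Group K] {I : Type}
    (P : PSys K (Option I)) {G : Type} [Group G] {e : K →* G} {s : I → G}
    (h : IsHNN (PSys.reix P some) e s) :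
    ∃ (G' : Type) (_ : Group G') (e' : K →* G') (s' : Option I → G'), IsHNN P e' s' := by
  have hα : Function.Injective (e.comp (P.α none)) := h.inj.comp (P.α_inj none)
  have hβ : Function.Injective (e.comp (P.β none)) := h.inj.comp (P.β_inj none)
  have h1 := hOne (P.C none) G (e.comp (P.α none)) (e.comp (P.β none)) hα hβ
  let s' : Option I → Hnn hα hβ := fun o => match o with
    | none => t
    | some i => of (s i)
  refine ⟨Hnn hα hβ, inferInstance, (of : G →* Hnn hα hβ).comp e, s', ?_⟩
  have hc : ∀ H : Subgroup K, P.Compat H → (PSys.reix P some).Compat H := fun H hH i c =>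
    hH (some i) c
  have hc1 : ∀ H : Subgroup K, P.Compat H → (psys1 hα hβ).Compat (gen e s H) := by
    intro H hH _ c
    show e (P.α none c) ∈ gen e s H ↔ e (P.β none c) ∈ gen e s H
    constructor
    · intro hx
      exact gen_of e s ((hH none c).1 (h.sub H (hc H hH) _ hx))
    · intro hx
      exact gen_of e s ((hH none c).2 (h.sub H (hc H hH) _ hx))
  have hle : ∀ H : Subgroup K, gen ((of : G →* Hnn hα hβ).comp e) s' H ≤
      gen (of : G →* Hnn hα hβ) (fun _ : Unit => (t : Hnn hα hβ)) (gen e s H) := by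
    intro H
    unfold gen
    rw [Subgroup.closure_le]
    rintro x (⟨y, hy, rfl⟩ | ⟨o, rfl⟩)
    · exact gen_of _ _ (gen_of e s hy)
    · match o with
      | none => exact gen_s _ (fun _ : Unit => (t : Hnn hα hβ)) _ ()
      | some i => exact gen_of _ _ (gen_s e s H i)
  refine ⟨?_, ?_, ?_, ?_, ?_, fun hK => h1.tf (h.tf hK), ?_⟩
  · rw [MonoidHom.coe_comp]
    exact h1.inj.comp h.inj
  · intro o c
    match o with
    | none => exact h1.rel () c
    | some i =>
      show (of (s i) : Hnn hα hβ) * of (e (P.α (some i) c)) = of (e (P.β (some i) c)) * of (s i)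
      rw [← map_mul, ← map_mul]
      exact congrArg _ (h.rel i c)
  · rw [eq_top_iff, ← h1.gen_top]
    unfold gen
    rw [Subgroup.closure_le]
    rintro x (⟨y, -, rfl⟩ | ⟨_, rfl⟩)
    · have hy : y ∈ gen e s ⊤ := by
        rw [h.gen_top]
        exact Subgroup.mem_top y
      have h2 : gen e s ⊤ ≤ (Subgroup.closure
          (((of : G →* Hnn hα hβ).comp e) '' ((⊤ : Subgroup K) : Set K) ∪ Set.range s')).comap
            (of : G →* Hnn hα hβ) := by
        unfold gen
        rw [Subgroup.closure_le]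
        rintro z (⟨k, hk, rfl⟩ | ⟨i, rfl⟩)
        · exact Subgroup.subset_closure (Or.inl ⟨k, hk, rfl⟩)
        · exact Subgroup.subset_closure (Or.inr ⟨some i, rfl⟩)
      exact h2 hy
    · exact Subgroup.subset_closure (Or.inr ⟨none, rfl⟩)
  · intro H hH x hx
    exact h.sub H (hc H hH) x (h1.sub _ (hc1 H hH) _ (hle H hx))
  · intro H hH X _ f σ hσ
    obtain ⟨F1, hF1, hF1s⟩ := h.lift H (hc H hH) X f (fun i => σ (some i))
      (fun i c => hσ (some i) c)
    obtain ⟨F2, hF2, hF2s⟩ := h1.lift (gen e s H) (hc1 H hH) X F1 (fun _ => σ none) (by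
      intro _ c m1 m2
      have a1 : P.α none c ∈ H := h.sub H (hc H hH) _ m1
      have a2 : P.β none c ∈ H := h.sub H (hc H hH) _ m2
      have b1 : F1 ⟨(psys1 hα hβ).α () c, m1⟩ = f ⟨P.α none c, a1⟩ := hF1 ⟨P.α none c, a1⟩
      have b2 : F1 ⟨(psys1 hα hβ).β () c, m2⟩ = f ⟨P.β none c, a2⟩ := hF1 ⟨P.β none c, a2⟩
      show σ none * F1 ⟨(psys1 hα hβ).α () c, m1⟩ = F1 ⟨(psys1 hα hβ).β () c, m2⟩ * σ none
      rw [b1, b2]
      exact hσ none c a1 a2)
    refine ⟨F2.comp (Subgroup.inclusion (hle H)), fun x => ?_, fun o => ?_⟩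
    · have c1 := hF2 ⟨e x, gen_of e s x.2⟩
      have c2 := hF1 x
      exact c1.trans c2
    · match o with
      | none => exact hF2s ()
      | some i =>
        have c1 := hF2 ⟨s i, gen_s e s H i⟩
        exact c1.trans (hF1s i)
  · intro hfp hfg
    exact h1.fp (h.fp hfp fun i => hfg (some i)) fun _ => hfg none

theorem iter (hOne : OneStatement) : IterStatement := by
  intro K _ I _
  refine Finite.induction_empty_option
    (P := fun I : Type => ∀ P : PSys K I, ∃ (G : Type) (_ : Group G) (e : K →* G) (s : I → G),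
      IsHNN P e s) ?_ ?_ ?_ I
  · intro I J q hI P
    obtain ⟨G, _, e, s, h⟩ := hI (PSys.reix P q)
    exact ⟨G, inferInstance, e, _, iter_equiv q P h⟩
  · intro P
    exact ⟨K, inferInstance, MonoidHom.id K, _, iter_empty P⟩
  · intro I _ hI P
    obtain ⟨G, _, e, s, h⟩ := hI (PSys.reix P some)
    exact iter_option hOne P h

end Pool.Agent.NegK.Hig.H50
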