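import Pool.Agent.Lib.MP_28303a_al.HIG.H50.FinalFP
import Pool.Agent.Lib.MP_28303a_al.HIG.H50.Higm
import Pool.Agent.Lib.MP_28303a_al.HIG.H57.Fph

/-! # From a finitely presented group to a two-generated finitely presented group -/

set_option autoImplicit false

namespace Pool.Agent.NegK.Hig.H50

open Pool.Agent.NegK.Hig Pool.Agent.NegK
open Pool.Agent.NegK.H12 (cj inj_cj inj_cj')

universe u

/-- The product of two finitely presented groups is finitely presented. -/
theorem prod_fp {G H : Type} [Group G] [Group H] (hG : Group.IsFinitelyPresented G)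
    (hH : Group.IsFinitelyPresented H) : Group.IsFinitelyPresented (G × H) := by
  classical
  have fG : Group.FG G := fg_of_fp hG
  have fH : Group.FG H := fg_of_fp hH
  obtain ⟨S, hS, hSf⟩ := Group.fg_iff.1 fG
  obtain ⟨T, hT, hTf⟩ := Group.fg_iff.1 fH
  let c : G × H → Monoid.Coprod G H := fun p =>
    Monoid.Coprod.inl p.1 * Monoid.Coprod.inr p.2 * (Monoid.Coprod.inl p.1)⁻¹ *
      (Monoid.Coprod.inr p.2)⁻¹
  have hsurj : Function.Surjective (Monoid.Coprod.toProd : Monoid.Coprod G H →* G × H) :=
    Monoid.Coprod.toProd_surjective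
  refine Group.IsFinitelyPresented.of_surjective
    (Monoid.Coprod.toProd : Monoid.Coprod G H →* G × H) hsurj ⟨c '' (S ×ˢ T),
      (hSf.prod hTf).image c, le_antisymm ?_ ?_⟩
  · refine Subgroup.normalClosure_le_normal ?_
    rintro _ ⟨p, -, rfl⟩
    show c p ∈ (Monoid.Coprod.toProd : Monoid.Coprod G H →* G × H).ker
    rw [MonoidHom.mem_ker]
    refine Prod.ext ?_ ?_ <;> simp [c]
  · let N := Subgroup.normalClosure (c '' (S ×ˢ T))
    let q : Monoid.Coprod G H →* Monoid.Coprod G H ⧸ N := QuotientGroup.mk' N
    have h1 : ∀ s ∈ S, ∀ t ∈ T, Commute (q (Monoid.Coprod.inl s)) (q (Monoid.Coprod.inr t)) := by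
      intro s hs t ht
      have h2 : q (c (s, t)) = 1 :=
        (QuotientGroup.eq_one_iff _).2 (Subgroup.subset_normalClosure ⟨(s, t), ⟨hs, ht⟩, rfl⟩)
      have h3 : q (Monoid.Coprod.inl s) * q (Monoid.Coprod.inr t) *
          (q (Monoid.Coprod.inl s))⁻¹ * (q (Monoid.Coprod.inr t))⁻¹ = 1 := by
        rw [← h2]
        simp [c]
      exact commutatorElement_eq_one_iff_commute.1 h3
    have h2 : ∀ s ∈ S, ∀ h : H, Commute (q (Monoid.Coprod.inl s)) (q (Monoid.Coprod.inr h)) := by
      intro s hs h
      have h3 : (⊤ : Subgroup H) ≤ (Subgroup.centralizer {q (Monoid.Coprod.inl s)}).comap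
          (q.comp Monoid.Coprod.inr) := by
        rw [← hT, Subgroup.closure_le]
        intro t ht
        show (q.comp Monoid.Coprod.inr) t ∈ Subgroup.centralizer {q (Monoid.Coprod.inl s)}
        rw [Subgroup.mem_centralizer_singleton_iff]
        exact (h1 s hs t ht).eq.symm
      have h4 := h3 (Subgroup.mem_top h)
      have h5 : (q.comp Monoid.Coprod.inr) h ∈ Subgroup.centralizer {q (Monoid.Coprod.inl s)} := h4
      rw [Subgroup.mem_centralizer_singleton_iff] at h5
      exact h5.symm
    have h3 : ∀ (g : G) (h : H), Commute (q (Monoid.Coprod.inl g)) (q (Monoid.Coprod.inr h)) := by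
      intro g h
      have h3 : (⊤ : Subgroup G) ≤ (Subgroup.centralizer {q (Monoid.Coprod.inr h)}).comap
          (q.comp Monoid.Coprod.inl) := by
        rw [← hS, Subgroup.closure_le]
        intro s hs
        show (q.comp Monoid.Coprod.inl) s ∈ Subgroup.centralizer {q (Monoid.Coprod.inr h)}
        rw [Subgroup.mem_centralizer_singleton_iff]
        exact (h2 s hs h).eq
      have h5 : (q.comp Monoid.Coprod.inl) g ∈ Subgroup.centralizer {q (Monoid.Coprod.inr h)} :=
        h3 (Subgroup.mem_top g)
      rw [Subgroup.mem_centralizer_singleton_iff] at h5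
      exact h5
    let θ : G × H →* Monoid.Coprod G H ⧸ N :=
      MonoidHom.noncommCoprod (q.comp Monoid.Coprod.inl) (q.comp Monoid.Coprod.inr) h3
    have h4 : θ.comp (Monoid.Coprod.toProd : Monoid.Coprod G H →* G × H) = q := by
      refine Monoid.Coprod.hom_ext ?_ ?_
      · ext g
        simp [θ]
      · ext h
        simp [θ]
    intro x hx
    rw [MonoidHom.mem_ker] at hx
    have h5 : q x = 1 := by
      rw [← h4, MonoidHom.comp_apply, hx, map_one]
    exact (QuotientGroup.eq_one_iff x).1 h5

/-- Every finitely presented torsionfree group is contained in a two-generated one, with an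
injection on `K_{-1}(R[·])` for regular `R`. -/
theorem two_gen (U : Type) [Group U] (hfp : Group.IsFinitelyPresented U) (htf : TorsionFree U) :
    ∃ (Δ : Type) (_ : Group Δ), Group.IsFinitelyPresented Δ ∧ TorsionFree Δ ∧
      (∃ a b : Δ, Subgroup.closure {a, b} = ⊤) ∧
      ∀ (R : Type u) [Ring R], RegularRing R → KInj R U Δ := by
  classical
  obtain ⟨n, ψ, hψ, -⟩ := hfp.out
  let g : Fin (n + 1) → U := Fin.cons 1 fun i => ψ (FreeGroup.of i)
  have hg : Subgroup.closure (Set.range g) = ⊤ := by
    rw [eq_top_iff]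
    rintro u -
    obtain ⟨w, rfl⟩ := hψ u
    have h1 : (⊤ : Subgroup (FreeGroup (Fin n))) ≤ (Subgroup.closure (Set.range g)).comap ψ := by
      rw [← FreeGroup.closure_range_of, Subgroup.closure_le]
      rintro _ ⟨i, rfl⟩
      exact Subgroup.subset_closure ⟨i.succ, rfl⟩
    exact h1 (Subgroup.mem_top w)
  set x : FreeGroup Bool := FreeGroup.of true with hx
  set y : FreeGroup Bool := FreeGroup.of false with hy
  let ι : FreeGroup (Fin (n + 1)) →* FreeGroup ℕ := FreeGroup.map fun i => (i : ℕ)
  have hι : Function.Injective ι := FreeGroup.map_injective Fin.val_injective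
  let α : FreeGroup (Fin (n + 1)) →* U × FreeGroup Bool := FreeGroup.lift fun i => (1, cj x y i)
  let β : FreeGroup (Fin (n + 1)) →* U × FreeGroup Bool := FreeGroup.lift fun i => (g i, cj y x i)
  have hα : Function.Injective α := by
    have e : (MonoidHom.snd U (FreeGroup Bool)).comp α = (FreeGroup.lift (cj x y)).comp ι := by
      refine FreeGroup.ext_hom _ _ fun i => ?_
      simp [α, ι]
    have h : Function.Injective ((FreeGroup.lift (cj x y)).comp ι) := by
      rw [MonoidHom.coe_comp]
      exact inj_cj.comp hι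
    rw [← e, MonoidHom.coe_comp] at h
    exact Function.Injective.of_comp h
  have hβ : Function.Injective β := by
    have e : (MonoidHom.snd U (FreeGroup Bool)).comp β = (FreeGroup.lift (cj y x)).comp ι := by
      refine FreeGroup.ext_hom _ _ fun i => ?_
      simp [β, ι]
    have h : Function.Injective ((FreeGroup.lift (cj y x)).comp ι) := by
      rw [MonoidHom.coe_comp]
      exact inj_cj'.comp hι
    rw [← e, MonoidHom.coe_comp] at h
    exact Function.Injective.of_comp h
  let φ : α.range ≃* β.range := (MonoidHom.ofInjective hα).symm.trans (MonoidHom.ofInjective hβ)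
  have hφ : ∀ w : FreeGroup (Fin (n + 1)), (φ ⟨α w, w, rfl⟩ : U × FreeGroup Bool) = β w := by
    intro w
    have e : (MonoidHom.ofInjective hα).symm ⟨α w, w, rfl⟩ = w :=
      (MonoidHom.ofInjective hα).symm_apply_eq.2 rfl
    simp only [φ, MulEquiv.trans_apply, e]
    rfl
  refine ⟨HNNExtension (U × FreeGroup Bool) α.range β.range φ, inferInstance, ?_, ?_,
    ⟨HNNExtension.t, HNNExtension.of (1, y), ?_⟩, ?_⟩
  · refine H57.fph _ _ _ _ (prod_fp hfp inferInstance) ?_
    rw [← Group.fg_iff_subgroup_fg]
    exact Group.fg_of_surjective (f := (MonoidHom.ofInjective hα).toMonoidHom)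
      (MonoidHom.ofInjective hα).surjective
  · exact H12.hnntf _ _ _ _ (torsionFree_prod htf (torsionFree_free Bool))
  · set C := Subgroup.closure {(HNNExtension.t : HNNExtension _ _ _ φ),
      HNNExtension.of (1, y)} with hC
    have ht : (HNNExtension.t : HNNExtension _ _ _ φ) ∈ C := Subgroup.subset_closure (by simp)
    have hy1 : (HNNExtension.of (1, y) : HNNExtension _ _ _ φ) ∈ C :=
      Subgroup.subset_closure (by simp)
    have hconj : ∀ w, (HNNExtension.of (α w) : HNNExtension _ _ _ φ) ∈ C →
        (HNNExtension.of (β w) : HNNExtension _ _ _ φ) ∈ C := by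
      intro w hw
      have h := HNNExtension.equiv_eq_conj (φ := φ) ⟨α w, w, rfl⟩
      rw [hφ w] at h
      rw [h]
      exact C.mul_mem (C.mul_mem ht hw) (C.inv_mem ht)
    have hx1 : (HNNExtension.of (1, x) : HNNExtension _ _ _ φ) ∈ C := by
      have h := hconj (FreeGroup.of 0) (by simpa [α, cj] using hy1)
      simpa [β, cj, g] using h
    have hF : ∀ w : FreeGroup Bool, (HNNExtension.of (1, w) : HNNExtension _ _ _ φ) ∈ C := by
      intro w
      let κ : FreeGroup Bool →* HNNExtension _ _ _ φ :=
        (HNNExtension.of).comp (MonoidHom.inr U (FreeGroup Bool))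
      have h : κ w ∈ C := by
        have h2 : (⊤ : Subgroup (FreeGroup Bool)) ≤ C.comap κ := by
          rw [← FreeGroup.closure_range_of, Subgroup.closure_le]
          rintro _ ⟨b, rfl⟩
          cases b
          · exact hy1
          · exact hx1
        exact h2 (Subgroup.mem_top w)
      exact h
    have hαC : ∀ i, (HNNExtension.of (β (FreeGroup.of i)) : HNNExtension _ _ _ φ) ∈ C := by
      intro i
      apply hconj
      have : α (FreeGroup.of i) = (1, cj x y i) := by simp [α]
      rw [this]
      exact hF _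
    have hU0 : ∀ i, (HNNExtension.of (g i, 1) : HNNExtension _ _ _ φ) ∈ C := by
      intro i
      have e : ((g i, 1) : U × FreeGroup Bool) = β (FreeGroup.of i) * (1, (cj y x i)⁻¹) := by
        simp [β]
      rw [e, map_mul]
      exact C.mul_mem (hαC i) (hF _)
    have hU : ∀ u : U, (HNNExtension.of (u, 1) : HNNExtension _ _ _ φ) ∈ C := by
      intro u
      let κ : U →* HNNExtension _ _ _ φ :=
        (HNNExtension.of).comp (MonoidHom.inl U (FreeGroup Bool))
      have h2 : (⊤ : Subgroup U) ≤ C.comap κ := by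
        rw [← hg, Subgroup.closure_le]
        rintro _ ⟨i, rfl⟩
        exact hU0 i
      exact h2 (Subgroup.mem_top u)
    rw [eq_top_iff]
    rintro z -
    induction z using HNNExtension.induction_on with
    | of p =>
      obtain ⟨u, w⟩ := p
      have e : ((u, w) : U × FreeGroup Bool) = (u, 1) * (1, w) := by simp
      rw [e, map_mul]
      exact C.mul_mem (hU u) (hF w)
    | t => exact ht
    | mul a b ha hb => exact C.mul_mem ha hb
    | inv a ha => exact C.inv_mem ha
  · intro R _ hR
    have h1 : Subsingleton (KNeg 1 (MonoidAlgebra R α.range)) :=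
      sub_of_equiv (MonoidHom.ofInjective hα) (H64.kfree_fin (H78.lreg H50.ext) H50.free R hR _)
    exact (KInj.of_retract (MonoidHom.inl U (FreeGroup Bool)) (MonoidHom.fst U (FreeGroup Bool))
      MonoidHom.fst_comp_inl).trans ⟨_, kneg_hnn_inj R (U × FreeGroup Bool) _ _ φ h1⟩

/-- The two-generated finitely presented universal group. -/
theorem exists_fp_two (hHig : HigStatement) (hGeq : GeqStatement) :
    ∃ (Γ : Type) (_ : Group Γ), Group.IsFinitelyPresented Γ ∧ TorsionFree Γ ∧
      (∃ a b : Γ, Subgroup.closure {a, b} = ⊤) ∧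
      ∀ (R : Type u) [Ring R], RegularRing R → KInj R UT Γ := by
  obtain ⟨Γ, _, hfp, htf, hk⟩ := exists_fp hHig hGeq
  obtain ⟨Δ, _, h1, h2, h3, h4⟩ := two_gen Γ hfp htf
  exact ⟨Δ, inferInstance, h1, h2, h3, fun R _ hR => (hk R hR).trans (h4 R hR)⟩

end Pool.Agent.NegK.Hig.H50
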