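import Pool.Agent.Lib.MP_28303a_al.HIG.Defs
import Pool.Agent.Lib.MP_28303a_al.NK.Univ

/-! # The groups of finite tables are retracts of the universal group `UT` -/

set_option autoImplicit false

namespace Pool.Agent.NegK.Hig.H50

open Pool.Agent.NegK.Hig Pool.Agent.NegK

universe u

/-- The list of relations of a finite table. -/
noncomputable def tabOf (T : Table) : Tab :=
  T.2.toList.map fun q => (q.1.val, q.2.1.val, q.2.2.val)

theorem mem_tabOf {T : Table} {i j k : ℕ} :
    (i, j, k) ∈ tabOf T ↔ ∃ a b c : Fin T.1, (a, b, c) ∈ T.2 ∧ i = a ∧ j = b ∧ k = c := by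
  unfold tabOf
  rw [List.mem_map]
  constructor
  · rintro ⟨⟨a, b, c⟩, h, heq⟩
    rw [Finset.mem_toList] at h
    simp only [Prod.mk.injEq] at heq
    exact ⟨a, b, c, h, heq.1.symm, heq.2.1.symm, heq.2.2.symm⟩
  · rintro ⟨a, b, c, h, rfl, rfl, rfl⟩
    exact ⟨(a, b, c), Finset.mem_toList.2 h, rfl⟩

/-- The inclusion of a retract. -/
noncomputable def toUT (T : Table) : TF T.grp →* UT :=
  TF.lift (torsionFree_TQ relU) (PresentedGroup.toGroup
    (f := fun i : Fin T.1 => (QuotientGroup.mk (FreeGroup.of (tabOf T, (i : ℕ))) : UT)) (by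
      rintro r ⟨i, j, k, h, rfl⟩
      rw [map_mul, map_mul, map_inv, FreeGroup.lift_apply_of, FreeGroup.lift_apply_of,
        FreeGroup.lift_apply_of, ← QuotientGroup.mk_mul, ← QuotientGroup.mk_inv,
        ← QuotientGroup.mk_mul, QuotientGroup.eq_one_iff]
      exact subset_isol _ ⟨tabOf T, i, j, k, mem_tabOf.2 ⟨i, j, k, h, rfl, rfl, rfl⟩, rfl⟩))

open Classical in
/-- The values of the retraction on the generators. -/
noncomputable def fromGen (T : Table) (p : Tab × ℕ) : TF T.grp :=
  if h : p.1 = tabOf T ∧ p.2 < T.1 then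
    QuotientGroup.mk' (tfKer T.grp) (PresentedGroup.of ⟨p.2, h.2⟩) else 1

/-- The retraction. -/
noncomputable def fromUT (T : Table) : UT →* TF T.grp :=
  TQ.lift (torsionFree_TF _) relU (FreeGroup.lift (fromGen T)) (by
    rintro w ⟨T', i, j, k, h, rfl⟩
    rw [map_mul, map_mul, map_inv, FreeGroup.lift_apply_of, FreeGroup.lift_apply_of,
      FreeGroup.lift_apply_of]
    by_cases hT : T' = tabOf T
    · subst hT
      obtain ⟨a, b, c, habc, rfl, rfl, rfl⟩ := mem_tabOf.1 h
      have h1 : ∀ a : Fin T.1, fromGen T (tabOf T, (a : ℕ)) =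
          QuotientGroup.mk' (tfKer T.grp) (PresentedGroup.of a) := by
        intro a
        unfold fromGen
        rw [dif_pos ⟨rfl, a.2⟩]
      rw [h1, h1, h1, ← map_mul, ← map_inv, ← map_mul]
      have h2 : (PresentedGroup.of a * PresentedGroup.of b * (PresentedGroup.of c)⁻¹ : T.grp) = 1 :=
        PresentedGroup.one_of_mem ⟨a, b, c, habc, rfl⟩
      rw [h2, map_one]
    · have h1 : ∀ n : ℕ, fromGen T (T', n) = 1 := by
        intro n
        unfold fromGen
        rw [dif_neg fun h => hT h.1]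
      rw [h1, h1, h1, mul_one, inv_one, mul_one])

theorem toUT_of (T : Table) (i : Fin T.1) :
    toUT T (QuotientGroup.mk' (tfKer T.grp) (PresentedGroup.of i)) =
      (QuotientGroup.mk (FreeGroup.of (tabOf T, (i : ℕ))) : UT) := by
  unfold toUT
  rw [TF.lift_mk, PresentedGroup.toGroup.of]

theorem fromUT_mk (T : Table) (w : FreeGroup (Tab × ℕ)) :
    fromUT T (QuotientGroup.mk w) = FreeGroup.lift (fromGen T) w := rfl

theorem fromUT_comp_toUT (T : Table) : (fromUT T).comp (toUT T) = MonoidHom.id _ := by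
  have h : ((fromUT T).comp (toUT T)).comp (QuotientGroup.mk' (tfKer T.grp)) =
      QuotientGroup.mk' (tfKer T.grp) := by
    refine PresentedGroup.ext fun i => ?_
    rw [MonoidHom.comp_apply, MonoidHom.comp_apply, toUT_of, fromUT_mk,
      FreeGroup.lift_apply_of]
    unfold fromGen
    rw [dif_pos ⟨rfl, i.2⟩]
  refine MonoidHom.ext fun x => ?_
  obtain ⟨y, rfl⟩ := QuotientGroup.mk'_surjective _ x
  exact DFunLike.congr_fun h y

/-- If `K_{-1}(R UT) = 0` then `K_{-1}(RG) = 0` for every torsionfree group `G`. -/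
theorem univt (R : Type u) [Ring R] (h : Subsingleton (KNeg 1 (MonoidAlgebra R UT)))
    (G : Type u) [Group G] (hG : TorsionFree G) : Subsingleton (KNeg 1 (MonoidAlgebra R G)) := by
  refine subsingleton_KNeg_one fun p => ?_
  obtain ⟨T, π, p₀, hp⟩ := lift_idem p
  refine ⟨MonoidAlgebra R (TF T.grp), inferInstance,
    MonoidAlgebra.mapDomainRingHom R (TF.lift hG π),
    p₀.map (lmap (MonoidAlgebra.mapDomainRingHom R (QuotientGroup.mk' (tfKer T.grp)))), ?_, ?_⟩
  · rw [Idem.map_map, ← lmap_comp, ← MonoidAlgebra.mapDomainRingHom_comp]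
    exact hp
  · refine (KNegFun 1).subsingleton_of_retract
      (MonoidAlgebra.mapDomainRingHom R (toUT T))
      (MonoidAlgebra.mapDomainRingHom R (fromUT T)) ?_ h
    rw [← MonoidAlgebra.mapDomainRingHom_comp, fromUT_comp_toUT,
      MonoidAlgebra.mapDomainRingHom_id]

end Pool.Agent.NegK.Hig.H50
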