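import Pool.Agent.Lib.MP_28303a_al.HIG.H50.Final

/-! # Zero or infinite: `K_{-1}(R UT)` is finitely generated only if it vanishes -/

set_option autoImplicit false

namespace Pool.Agent.NegK.Hig.H50

open Pool.Agent.NegK.Hig Pool.Agent.NegK

universe u

/-- The relations of a finite table together with `k` copies of the relation `x_m x_m = x_m`,
where `x_m` is a new generator. -/
noncomputable def tabK (T : Table) (k : ℕ) : Tab :=
  tabOf T ++ List.replicate k (T.1, T.1, T.1)

theorem tabK_inj (T : Table) {k l : ℕ} (h : tabK T k = tabK T l) : k = l := by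
  have h1 := congrArg List.length h
  unfold tabK at h1
  rw [List.length_append, List.length_append, List.length_replicate, List.length_replicate] at h1
  omega

/-- The inclusion of the `k`-th retract. -/
noncomputable def toK (T : Table) (k : ℕ) : TF T.grp →* UT :=
  TF.lift (torsionFree_TQ relU) (PresentedGroup.toGroup
    (f := fun i : Fin T.1 => (QuotientGroup.mk (FreeGroup.of (tabK T k, (i : ℕ))) : UT)) (by
      rintro r ⟨i, j, l, h, rfl⟩
      rw [map_mul, map_mul, map_inv, FreeGroup.lift_apply_of, FreeGroup.lift_apply_of,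
        FreeGroup.lift_apply_of, ← QuotientGroup.mk_mul, ← QuotientGroup.mk_inv,
        ← QuotientGroup.mk_mul, QuotientGroup.eq_one_iff]
      exact subset_isol _ ⟨tabK T k, i, j, l,
        List.mem_append_left _ (mem_tabOf.2 ⟨i, j, l, h, rfl, rfl, rfl⟩), rfl⟩))

open Classical in
/-- The values of the `k`-th retraction on the generators. -/
noncomputable def fromGenK (T : Table) (k : ℕ) (p : Tab × ℕ) : TF T.grp :=
  if h : p.1 = tabK T k ∧ p.2 < T.1 then
    QuotientGroup.mk' (tfKer T.grp) (PresentedGroup.of ⟨p.2, h.2⟩) else 1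

/-- The `k`-th retraction. -/
noncomputable def fromK (T : Table) (k : ℕ) : UT →* TF T.grp :=
  TQ.lift (torsionFree_TF _) relU (FreeGroup.lift (fromGenK T k)) (by
    rintro w ⟨T', i, j, l, h, rfl⟩
    rw [map_mul, map_mul, map_inv, FreeGroup.lift_apply_of, FreeGroup.lift_apply_of,
      FreeGroup.lift_apply_of]
    by_cases hT : T' = tabK T k
    · subst hT
      rcases List.mem_append.1 h with h | h
      · obtain ⟨a, b, c, habc, rfl, rfl, rfl⟩ := mem_tabOf.1 h
        have h1 : ∀ a : Fin T.1, fromGenK T k (tabK T k, (a : ℕ)) =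
            QuotientGroup.mk' (tfKer T.grp) (PresentedGroup.of a) := by
          intro a
          unfold fromGenK
          rw [dif_pos ⟨rfl, a.2⟩]
        rw [h1, h1, h1, ← map_mul, ← map_inv, ← map_mul]
        have h2 : (PresentedGroup.of a * PresentedGroup.of b * (PresentedGroup.of c)⁻¹ : T.grp) =
            1 := PresentedGroup.one_of_mem ⟨a, b, c, habc, rfl⟩
        rw [h2, map_one]
      · have h1 := List.eq_of_mem_replicate h
        simp only [Prod.mk.injEq] at h1
        obtain ⟨rfl, rfl, rfl⟩ := h1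
        have h2 : fromGenK T k (tabK T k, T.1) = 1 := by
          unfold fromGenK
          rw [dif_neg fun h => lt_irrefl _ h.2]
        rw [h2, mul_one, inv_one, mul_one]
    · have h1 : ∀ n : ℕ, fromGenK T k (T', n) = 1 := by
        intro n
        unfold fromGenK
        rw [dif_neg fun h => hT h.1]
      rw [h1, h1, h1, mul_one, inv_one, mul_one])

theorem toK_of (T : Table) (k : ℕ) (i : Fin T.1) :
    toK T k (QuotientGroup.mk' (tfKer T.grp) (PresentedGroup.of i)) =
      (QuotientGroup.mk (FreeGroup.of (tabK T k, (i : ℕ))) : UT) := by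
  unfold toK
  rw [TF.lift_mk, PresentedGroup.toGroup.of]

theorem fromK_mk (T : Table) (k : ℕ) (w : FreeGroup (Tab × ℕ)) :
    fromK T k (QuotientGroup.mk w) = FreeGroup.lift (fromGenK T k) w := rfl

theorem hom_ext_tf (T : Table) {H : Type} [Group H] {f g : TF T.grp →* H}
    (h : ∀ i : Fin T.1, f (QuotientGroup.mk' (tfKer T.grp) (PresentedGroup.of i)) =
      g (QuotientGroup.mk' (tfKer T.grp) (PresentedGroup.of i))) : f = g := by
  have h1 : f.comp (QuotientGroup.mk' (tfKer T.grp)) = g.comp (QuotientGroup.mk' (tfKer T.grp)) :=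
    PresentedGroup.ext h
  refine MonoidHom.ext fun x => ?_
  obtain ⟨y, rfl⟩ := QuotientGroup.mk'_surjective _ x
  exact DFunLike.congr_fun h1 y

theorem fromK_comp_toK (T : Table) (k : ℕ) : (fromK T k).comp (toK T k) = MonoidHom.id _ := by
  refine hom_ext_tf T fun i => ?_
  rw [MonoidHom.comp_apply, toK_of, fromK_mk, FreeGroup.lift_apply_of, MonoidHom.id_apply]
  unfold fromGenK
  rw [dif_pos ⟨rfl, i.2⟩]

theorem fromK_comp_toK_ne (T : Table) {k l : ℕ} (h : k ≠ l) : (fromK T k).comp (toK T l) = 1 := by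
  refine hom_ext_tf T fun i => ?_
  rw [MonoidHom.comp_apply, toK_of, fromK_mk, FreeGroup.lift_apply_of, MonoidHom.one_apply]
  unfold fromGenK
  rw [dif_neg fun h1 => h (tabK_inj T h1.1).symm]

/-- `K_{-1}(R) = 0` in the form `K_{-1}(R[1]) = 0`. -/
theorem sub_unit (R : Type u) [Ring R] (hR : RegularRing R) :
    Subsingleton (KNeg 1 (MonoidAlgebra R Unit)) :=
  sub_of_retract (1 : Unit →* FreeGroup ℕ) (1 : FreeGroup ℕ →* Unit)
    (MonoidHom.ext fun _ => rfl) (H64.kfree (H78.lreg H50.ext) H50.free R hR)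

/-- The trivial homomorphism induces zero on `K_{-1}`. -/
theorem hom_one (R : Type u) [Ring R] (hR : RegularRing R) {G H : Type} [Group G] [Group H]
    (x : KNeg 1 (MonoidAlgebra R G)) :
    (KNegFun 1).hom (MonoidAlgebra.mapDomainRingHom R (1 : G →* H)) x = 0 := by
  have h1 : (1 : G →* H) = (1 : Unit →* H).comp (1 : G →* Unit) := rfl
  have h2 := sub_unit R hR
  rw [h1, MonoidAlgebra.mapDomainRingHom_comp, (KNegFun 1).hom_comp, AddMonoidHom.comp_apply,
    Subsingleton.elim ((KNegFun 1).hom (MonoidAlgebra.mapDomainRingHom R (1 : G →* Unit)) x) 0,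
    map_zero]

/-- If `K_{-1}(R UT)` is finitely generated, then it contains no `K_{-1}(R TF(T))`. -/
theorem sub_tab (R : Type u) [Ring R] (hR : RegularRing R)
    (h : AddGroup.FG (KNeg 1 (MonoidAlgebra R UT))) (T : Table) :
    Subsingleton (KNeg 1 (MonoidAlgebra R (TF T.grp))) := by
  classical
  let I : ℕ → KNeg 1 (MonoidAlgebra R (TF T.grp)) →+ KNeg 1 (MonoidAlgebra R UT) :=
    fun k => (KNegFun 1).hom (MonoidAlgebra.mapDomainRingHom R (toK T k))
  let P : ℕ → KNeg 1 (MonoidAlgebra R UT) →+ KNeg 1 (MonoidAlgebra R (TF T.grp)) :=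
    fun k => (KNegFun 1).hom (MonoidAlgebra.mapDomainRingHom R (fromK T k))
  have hPI : ∀ k x, P k (I k x) = x := by
    intro k x
    show ((KNegFun 1).hom _) (((KNegFun 1).hom _) x) = x
    rw [← AddMonoidHom.comp_apply, ← (KNegFun 1).hom_comp,
      ← MonoidAlgebra.mapDomainRingHom_comp, fromK_comp_toK, MonoidAlgebra.mapDomainRingHom_id,
      (KNegFun 1).hom_id]
    rfl
  have hPI0 : ∀ k l x, k ≠ l → P k (I l x) = 0 := by
    intro k l x hkl
    show ((KNegFun 1).hom _) (((KNegFun 1).hom _) x) = 0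
    rw [← AddMonoidHom.comp_apply, ← (KNegFun 1).hom_comp,
      ← MonoidAlgebra.mapDomainRingHom_comp, fromK_comp_toK_ne T hkl]
    exact hom_one R hR x
  let Φ : (ℕ →₀ KNeg 1 (MonoidAlgebra R (TF T.grp))) →+ KNeg 1 (MonoidAlgebra R UT) :=
    Finsupp.liftAddHom I
  have hΦ : ∀ f k, P k (Φ f) = f k := by
    intro f k
    show P k (f.sum fun l x => I l x) = f k
    rw [Finsupp.sum, map_sum, Finset.sum_eq_single k]
    · exact hPI k _
    · intro l _ hl
      exact hPI0 k l _ hl.symm
    · intro hk
      rw [Finsupp.notMem_support_iff.1 hk, map_zero, map_zero]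
  have hinj : Function.Injective Φ := by
    intro f g hfg
    refine Finsupp.ext fun k => ?_
    rw [← hΦ f k, ← hΦ g k, hfg]
  have h1 : Module.Finite ℤ (KNeg 1 (MonoidAlgebra R UT)) := Module.Finite.iff_addGroup_fg.2 h
  have h2 : Module.Finite ℤ (ℕ →₀ KNeg 1 (MonoidAlgebra R (TF T.grp))) :=
    Module.Finite.of_injective Φ.toIntLinearMap hinj
  rcases Module.finite_finsupp_iff.1 h2 with h3 | h3 | h3
  · exact (h3.false 0).elim
  · exact h3
  · exact (not_finite_iff_infinite.2 (inferInstance : Infinite ℕ) h3.2).elim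

/-- A variant of the universal property which uses only the tables. -/
theorem univ_tab (R : Type u) [Ring R]
    (h : ∀ T : Table, Subsingleton (KNeg 1 (MonoidAlgebra R (TF T.grp))))
    (G : Type u) [Group G] (hG : TorsionFree G) : Subsingleton (KNeg 1 (MonoidAlgebra R G)) := by
  refine subsingleton_KNeg_one fun p => ?_
  obtain ⟨T, π, p₀, hp⟩ := lift_idem p
  refine ⟨MonoidAlgebra R (TF T.grp), inferInstance,
    MonoidAlgebra.mapDomainRingHom R (TF.lift hG π),
    p₀.map (lmap (MonoidAlgebra.mapDomainRingHom R (QuotientGroup.mk' (tfKer T.grp)))), ?_, h T⟩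
  rw [Idem.map_map, ← lmap_comp, ← MonoidAlgebra.mapDomainRingHom_comp]
  exact hp

/-- Zero or infinite for the group `UT`. -/
theorem zoi_ut (R : Type u) [Ring R] (hR : RegularRing R)
    (h : AddGroup.FG (KNeg 1 (MonoidAlgebra R UT))) (G : Type u) [Group G] (hG : TorsionFree G) :
    Subsingleton (KNeg 1 (MonoidAlgebra R G)) :=
  univ_tab R (sub_tab R hR h) G hG

end Pool.Agent.NegK.Hig.H50
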